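import Pool.Agent.H33.PpcDefs
import Pool.Agent.H33.Ppc4

namespace Pool.Agent.Results.MP_b61c36_nt.Q1

open MeasureTheory Pool.Agent.H33

theorem result (α₀ : ℝ) (hα₀ : Irrational α₀) :
    ∃ a : ℕ → ℕ, StrictMono a ∧
      (∀ᵐ α : ℝ, ¬ PPC (fun n => Int.fract ((a n : ℝ) * α))) ∧
      PPC (fun n => Int.fract ((a n : ℝ) * α₀)) := by
  obtain ⟨a, h1, h2, h3, -⟩ := @Ppc4.main ⟨fun _ => 0⟩ α₀ hα₀
  exact ⟨a, h1, h2, h3⟩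

end Pool.Agent.Results.MP_b61c36_nt.Q1
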